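import Pool.Agent.Lib.MP_3a897b_co.Defs
import Pool.Agent.Lib.MP_3a897b_co.RankLower
import Pool.Agent.Lib.MP_3a897b_co.RankUpper
import Pool.Agent.Lib.MP_3a897b_coS.AnyRank

/-!
For all finite abelian groups `G` and all `h`, `m`: `φ±(G, h) ≤ m` if the rank of `G` is at most
`m - 1` and the order of `G` is at most a constant times `h ^ (m - 1)`; the conditions are
necessary up to the constant.
-/

namespace Pool.Agent.Results.MP_3a897b_co.LargeH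

open Pool.Agent.Lib.MP_3a897b_co

universe u

/-- Let `G` be a finite abelian group, `r` the least number of generators of `G`, `h ≥ 1`.
* If `s ≥ 1`, `r ≤ s` and `(s ^ 2 + 3 s - 2) ^ s |G| ≤ (4 h) ^ s`, then `φ±(G, h) ≤ s + 1`.
* If `φ±(G, h) ≤ s + 1`, then `r ≤ s` and `|G| ≤ 2 (2 h + 1) ^ s`.
* If `r ≥ 1` and `(r ^ 2 + 3 r - 2) ^ r |G| ≤ (4 h) ^ r`, then `φ±(G, h) = r + 1`.
* If `s ≥ 1`, `2 (2 h + 1) ^ (s - 1) < |G|` and `(s ^ 2 + 3 s - 2) ^ s |G| ≤ (4 h) ^ s`, then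
  `φ±(G, h) = s + 1` if and only if `r ≤ s`.
* If `G` is isomorphic to a product of `r` cyclic groups of orders `n i` with
  `∑ i, ⌊n i / 2⌋ ≤ h`, then `φ±(G, h) = r + 1`.
* Let `r = p + 1` and let `G` be isomorphic to the product of `p` cyclic groups of orders `n i` and
  of a cyclic group of order `M`. If there are a common multiple `W ≥ 1` of the `n i` and
  `k i ≥ 1` with `M ≤ W ∏ i, k i` and `⌊W / 2⌋ + ∑ i, ⌊n i * k i / 2⌋ ≤ h`, then
  `φ±(G, h) = r + 1`. -/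
theorem result : ∀ (G : Type u) [AddCommGroup G] [Finite G] (h : ℕ), 1 ≤ h →
    (∀ s : ℕ, 1 ≤ s → AddGroup.rank G ≤ s →
      (s ^ 2 + 3 * s - 2) ^ s * Nat.card G ≤ (4 * h) ^ s → phiPM G h ≤ s + 1) ∧
    (∀ s : ℕ, phiPM G h ≤ s + 1 → AddGroup.rank G ≤ s ∧ Nat.card G ≤ 2 * (2 * h + 1) ^ s) ∧
    (∀ r : ℕ, AddGroup.rank G = r → 1 ≤ r →
      (r ^ 2 + 3 * r - 2) ^ r * Nat.card G ≤ (4 * h) ^ r → phiPM G h = r + 1) ∧
    (∀ s : ℕ, 1 ≤ s → 2 * (2 * h + 1) ^ (s - 1) < Nat.card G →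
      (s ^ 2 + 3 * s - 2) ^ s * Nat.card G ≤ (4 * h) ^ s →
      (phiPM G h = s + 1 ↔ AddGroup.rank G ≤ s)) ∧
    (∀ n : Fin (AddGroup.rank G) → ℕ, (∀ i, 0 < n i) → Nonempty (G ≃+ (∀ i, ZMod (n i))) →
      ∑ i, n i / 2 ≤ h → phiPM G h = AddGroup.rank G + 1) ∧
    (∀ (p W M : ℕ) (n k : Fin p → ℕ), AddGroup.rank G = p + 1 → 0 < W → 0 < M →
      (∀ i, 0 < n i) → (∀ i, 0 < k i) → (∀ i, n i ∣ W) →
      Nonempty (G ≃+ (∀ i, ZMod (n i)) × ZMod M) → M ≤ W * ∏ i, k i →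
      W / 2 + ∑ i, n i * k i / 2 ≤ h → phiPM G h = AddGroup.rank G + 1) := by
  intro G _ _ h hh
  have hlow := rank_lt_phiPM (G := G) h hh
  refine ⟨fun s hs hr hN => Lib.MP_3a897b_coS.phiPM_le_any hs hr hN,
    fun s hs => ⟨by omega, Lib.MP_3a897b_coS.card_le_of_phiPM hh hs⟩, ?_, ?_,
    fun n hn he hsum => ?_, ?_⟩
  · rintro r rfl hr hN
    exact Lib.MP_3a897b_coS.any_rank hh hr hN
  · intro s hs hlt hN
    constructor
    · intro h1
      omega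
    · intro hr
      refine le_antisymm (Lib.MP_3a897b_coS.phiPM_le_any hs hr hN) ?_
      by_contra hc
      have h1 : phiPM G h ≤ (s - 1) + 1 := by omega
      have h2 := Lib.MP_3a897b_coS.card_le_of_phiPM hh h1
      omega
  · obtain ⟨e⟩ := he
    exact le_antisymm (phiPM_le_of_pi h _ n hn e hsum) hlow
  · rintro p W M n k hr hW hM hn hk hd ⟨e⟩ hMW hsum
    have hle := Lib.MP_3a897b_coS.phiPM_le_of_iso e hW hM hn hk hd hMW hsum
    omega

end Pool.Agent.Results.MP_3a897b_co.LargeH
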