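import Pool.Agent.Lib.MP_3a897b_co.Defs
import Pool.Agent.Lib.MP_3a897b_coR.Three
import Pool.Agent.Lib.MP_3a897b_coS.Eight

/-!
The value of `φ±(G, h)` for all groups `G` of order less than `(h + 1) ^ 2`, and for many larger
groups `G` of rank two.
-/

namespace Pool.Agent.Results.MP_3a897b_co.SmallOrder

open Pool.Agent.Lib.MP_3a897b_co

universe u

/-- `h = 2 (c e + L p t)` for integers `c`, `L`, `p`, `t` with `p ≥ 1`, `2 L + p = 4 c + 1`,
`L p` coprime to `e`, and either `L ≥ 1`, `t ≥ 0`, or `L ≤ -1`, `t ≤ -1`, `p ≥ e`. -/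
def Rep (h e : ℤ) : Prop :=
  ∃ c L p t : ℤ, 1 ≤ p ∧ 2 * L + p = 4 * c + 1 ∧ IsCoprime (L * p) e ∧
    h = 2 * (c * e + L * p * t) ∧ ((1 ≤ L ∧ 0 ≤ t) ∨ (L ≤ -1 ∧ t ≤ -1 ∧ e ≤ p))

/-- `n ≤ 2 h + 1`, or `n` and `h` are odd and `n ≤ 3 h`, or `n` is odd, `h` is even and
`Rep h (n - 2 h)`. -/
def Two (n h : ℕ) : Prop :=
  n ≤ 2 * h + 1 ∨ (Odd n ∧ Odd h ∧ n ≤ 3 * h) ∨ (Odd n ∧ Even h ∧ Rep h ((n : ℤ) - 2 * h))

/-- Let `G` be a finite abelian group and `h ≥ 1`.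
* Suppose that `|G| < (h + 1) ^ 2`. If `G` is cyclic and `Two |G| h` fails, then `φ±(G, h) = 3`.
  If `G` is the elementary group of order eight and `h = 2`, then `φ±(G, h) = 5`. In all other
  cases `φ±(G, h)` is one more than the rank of `G`.
* If `G` has rank two and `|G| = 2 h ^ 2`, then `φ±(G, h) = 3`.
* Let `G` be isomorphic to `ℤ_a × ℤ_(a b)` with `a ≥ 2`, `b ≥ 1`. If there is `w` with
  `a w ≤ 2 h + 1` such that `w` is odd and `2 b ≤ w ^ 2`, or `w` is even and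
  `2 b ≤ w ^ 2 - w + 1`, or `w` and `b` are even, `2 b ≤ w ^ 2` and (`4 ∣ w` or `4 ∤ b`),
  then `φ±(G, h) = 3`. -/
theorem result : ∀ (G : Type u) [AddCommGroup G] [Finite G] (h : ℕ), 1 ≤ h →
    (Nat.card G < (h + 1) ^ 2 →
      (IsAddCyclic G ∧ ¬ Two (Nat.card G) h → phiPM G h = 3) ∧
      (AddGroup.rank G = 3 ∧ Nat.card G = 8 ∧ h = 2 → phiPM G h = 5) ∧
      (¬ (IsAddCyclic G ∧ ¬ Two (Nat.card G) h) →
        ¬ (AddGroup.rank G = 3 ∧ Nat.card G = 8 ∧ h = 2) →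
        phiPM G h = AddGroup.rank G + 1)) ∧
    (AddGroup.rank G = 2 → Nat.card G = 2 * h ^ 2 → phiPM G h = 3) ∧
    (∀ a b w : ℕ, 2 ≤ a → 1 ≤ b → Nonempty (G ≃+ ZMod a × ZMod (a * b)) →
      a * w ≤ 2 * h + 1 →
      ((Odd w ∧ 2 * b ≤ w ^ 2) ∨ (Even w ∧ 2 * b + w ≤ w ^ 2 + 1) ∨
        (Even w ∧ Even b ∧ 2 * b ≤ w ^ 2 ∧ (4 ∣ w ∨ ¬ 4 ∣ b))) → phiPM G h = 3) := by
  intro G _ _ h hh
  have key : Two (Nat.card G) h ↔ (Nat.card G ≤ 2 * h + 1 ∨
      (Odd (Nat.card G) ∧ Odd h ∧ Nat.card G ≤ 3 * h) ∨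
      (Odd (Nat.card G) ∧ ∃ k : ℕ, h = 2 * k ∧
        Lib.MP_3a897b_coR.RepZ k ((Nat.card G : ℤ) - 2 * h))) := by
    constructor
    · rintro (h1 | h1 | ⟨h1, ⟨k, hk⟩, c, L, p, t, h2, h3, h4, h5, h6⟩)
      · exact Or.inl h1
      · exact Or.inr (Or.inl h1)
      · refine Or.inr (Or.inr ⟨h1, k, by omega, c, L, p, t, h2, h3, h4, ?_, h6⟩)
        have : (h : ℤ) = 2 * k := by omega
        linarith
    · rintro (h1 | h1 | ⟨h1, k, hk, c, L, p, t, h2, h3, h4, h5, h6⟩)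
      · exact Or.inl h1
      · exact Or.inr (Or.inl h1)
      · refine Or.inr (Or.inr ⟨h1, ⟨k, by omega⟩, c, L, p, t, h2, h3, h4, ?_, h6⟩)
        have : (h : ℤ) = 2 * k := by omega
        linarith
  have hlow := rank_lt_phiPM (G := G) h hh
  refine ⟨fun hn => ⟨?_, ?_, ?_⟩, fun hr hn => ?_, ?_⟩
  · rintro ⟨h1, h2⟩
    have h3 : 2 ≤ Nat.card G := by
      by_contra hc
      exact h2 (Or.inl (by omega))
    refine (Lib.MP_3a897b_coR.three_iff hh h1 h3 (Or.inl ?_)).mpr (fun h4 => h2 (key.mpr h4))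
    nlinarith
  · rintro ⟨h1, h2, rfl⟩
    exact Lib.MP_3a897b_coS.phi_eight h1 h2
  · intro h1 h2
    rcases Nat.lt_or_ge (AddGroup.rank G) 2 with h3 | h3
    · have h4 := Lib.MP_3a897b_coS.cyclic_of_rank (G := G) (by omega)
      have hT : Two (Nat.card G) h := by
        by_contra hc
        exact h1 ⟨h4, hc⟩
      rcases Nat.lt_or_ge (Nat.card G) 2 with h5 | h5
      · have h6 : Nat.card G = 1 := by
          have : 0 < Nat.card G := Nat.card_pos
          omega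
        have h7 : Subsingleton G := (Nat.card_eq_one_iff_unique.mp h6).1
        have h8 : phiPM G h ≤ (∅ : Finset G).card + 1 := phiPM_le_of_words h ∅ (fun x =>
          ⟨fun _ => 0, by rw [Finset.sum_empty]; exact Subsingleton.elim _ _, by
            rw [Finset.sum_empty]; exact Int.natCast_nonneg h⟩)
        rw [Finset.card_empty] at h8
        omega
      · have h6 := (Lib.MP_3a897b_coR.all_iff hh).mpr ⟨h4, h5, key.mp hT⟩
        have h7 : AddGroup.rank G ≠ 0 := by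
          intro h8
          obtain ⟨S, hS, hcl⟩ := AddGroup.rank_spec G
          rw [h8, Finset.card_eq_zero] at hS
          subst hS
          rw [Finset.coe_empty, AddSubgroup.closure_empty] at hcl
          have h9 : Nat.card G = 1 := by
            rw [← AddSubgroup.card_top (G := G), ← hcl, AddSubgroup.card_bot]
          omega
        omega
    · exact Lib.MP_3a897b_coS.rank_general hh h3 hn h2
  · exact Lib.MP_3a897b_coS.rank_two hh hr (Or.inr hn)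
  · rintro a b w ha hb ⟨e⟩ hw hc
    exact Lib.MP_3a897b_coS.rank_two_prod hh ha hb e ⟨w, hw, hc⟩

end Pool.Agent.Results.MP_3a897b_co.SmallOrder
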