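import Pool.Agent.Lib.MP_3a897b_co.Defs
import Pool.Agent.Lib.MP_3a897b_coR.Three

/-!
The value of `φ±(G, h)` for all cyclic groups `G` of order at most `2 h ^ 2 + 2 h + 1`.
-/

namespace Pool.Agent.Results.MP_3a897b_co.ThreeElement

open Pool.Agent.Lib.MP_3a897b_co

universe u

/-- `h / 2 = c e + L p t` for integers `c`, `L`, `p`, `t` with `p ≥ 1`, `2 L + p = 4 c + 1`,
`L p` coprime to `e`, and either `L ≥ 1`, `t ≥ 0`, or `L ≤ -1`, `t ≤ -1`, `p ≥ e`. -/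
def Rep (h e : ℤ) : Prop :=
  ∃ c L p t : ℤ, 1 ≤ p ∧ 2 * L + p = 4 * c + 1 ∧ IsCoprime (L * p) e ∧
    h = 2 * (c * e + L * p * t) ∧ ((1 ≤ L ∧ 0 ≤ t) ∨ (L ≤ -1 ∧ t ≤ -1 ∧ e ≤ p))

/-- `n ≤ 2 h + 1`, or `n` and `h` are odd and `n ≤ 3 h`, or `n` is odd, `h` is even and
`Rep h (n - 2 h)`. -/
def Two (n h : ℕ) : Prop :=
  n ≤ 2 * h + 1 ∨ (Odd n ∧ Odd h ∧ n ≤ 3 * h) ∨ (Odd n ∧ Even h ∧ Rep h ((n : ℤ) - 2 * h))

/-- Let `h ≥ 1` and let `G` be a cyclic group of order `n ≥ 2`, where `n ≤ 2 h ^ 2 + 2 h + 1`, or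
`n` and `h` are odd and `n ≤ 2 h ^ 2 + 3 h`. Then `φ±(G, h) = 2` if `Two n h` holds, and
`φ±(G, h) = 3` if it does not. -/
theorem result : ∀ (G : Type u) [AddCommGroup G] [Finite G] (h : ℕ), 1 ≤ h → IsAddCyclic G →
    2 ≤ Nat.card G →
    (Nat.card G ≤ 2 * h ^ 2 + 2 * h + 1 ∨
      (Odd (Nat.card G) ∧ Odd h ∧ Nat.card G ≤ 2 * h ^ 2 + 3 * h)) →
    (Two (Nat.card G) h → phiPM G h = 2) ∧ (¬ Two (Nat.card G) h → phiPM G h = 3) := by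
  intro G _ _ h hh hcyc hn hr
  have key : Two (Nat.card G) h ↔ (Nat.card G ≤ 2 * h + 1 ∨
      (Odd (Nat.card G) ∧ Odd h ∧ Nat.card G ≤ 3 * h) ∨
      (Odd (Nat.card G) ∧ ∃ k : ℕ, h = 2 * k ∧
        Lib.MP_3a897b_coR.RepZ k ((Nat.card G : ℤ) - 2 * h))) := by
    constructor
    · rintro (h1 | h1 | ⟨h1, ⟨k, hk⟩, c, L, p, t, h2, h3, h4, h5, h6⟩)
      · exact Or.inl h1
      · exact Or.inr (Or.inl h1)
      · refine Or.inr (Or.inr ⟨h1, k, by omega, c, L, p, t, h2, h3, h4, ?_, h6⟩)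
        have : (h : ℤ) = 2 * k := by omega
        linarith
    · rintro (h1 | h1 | ⟨h1, k, hk, c, L, p, t, h2, h3, h4, h5, h6⟩)
      · exact Or.inl h1
      · exact Or.inr (Or.inl h1)
      · refine Or.inr (Or.inr ⟨h1, ⟨k, by omega⟩, c, L, p, t, h2, h3, h4, ?_, h6⟩)
        have : (h : ℤ) = 2 * k := by omega
        linarith
  constructor
  · intro H
    exact (Lib.MP_3a897b_coR.all_iff hh).mpr ⟨hcyc, hn, key.mp H⟩
  · intro H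
    refine (Lib.MP_3a897b_coR.three_iff hh hcyc hn ?_).mpr (fun h1 => H (key.mpr h1))
    rcases hr with hr | ⟨h1, h2, h3⟩
    · exact Or.inl hr
    · exact Or.inr ⟨h2, h1, h3⟩

end Pool.Agent.Results.MP_3a897b_co.ThreeElement
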