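import Pool.Agent.Lib.MP_3a897b_co.Defs
import Pool.Agent.Lib.MP_3a897b_coR.Fin

/-!
All finite abelian groups `G` and all `h ≥ 1` with `φ±(G, h) = 2`.
-/

namespace Pool.Agent.Results.MP_3a897b_co.TwoElementAll

open Pool.Agent.Lib.MP_3a897b_co

universe u

/-- `h / 2 = c e + L p t` for integers `c`, `L`, `p`, `t` with `p ≥ 1`, `2 L + p = 4 c + 1`,
`L p` coprime to `e`, and either `L ≥ 1`, `t ≥ 0`, or `L ≤ -1`, `t ≤ -1`, `p ≥ e`. -/
def Rep (h e : ℤ) : Prop :=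
  ∃ c L p t : ℤ, 1 ≤ p ∧ 2 * L + p = 4 * c + 1 ∧ IsCoprime (L * p) e ∧
    h = 2 * (c * e + L * p * t) ∧ ((1 ≤ L ∧ 0 ≤ t) ∨ (L ≤ -1 ∧ t ≤ -1 ∧ e ≤ p))

/-- Let `G` be a finite abelian group of order `n` and `h ≥ 1`. Then `φ±(G, h) = 2` if and only
if `G` is cyclic, `n ≥ 2`, and `n ≤ 2 h + 1`, or `n` and `h` are odd and `n ≤ 3 h`, or `n` is
odd, `h` is even and `Rep h (n - 2 h)`. -/
theorem result : ∀ (G : Type u) [AddCommGroup G] [Finite G] (h : ℕ), 1 ≤ h →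
    (phiPM G h = 2 ↔ IsAddCyclic G ∧ 2 ≤ Nat.card G ∧
      (Nat.card G ≤ 2 * h + 1 ∨
        (Odd (Nat.card G) ∧ Odd h ∧ Nat.card G ≤ 3 * h) ∨
        (Odd (Nat.card G) ∧ Even h ∧ Rep h ((Nat.card G : ℤ) - 2 * h)))) := by
  intro G _ _ h hh
  have hrep : ∀ k : ℕ, h = 2 * k → (Rep h ((Nat.card G : ℤ) - 2 * h) ↔
      Lib.MP_3a897b_coR.RepZ k ((Nat.card G : ℤ) - 2 * h)) := by
    rintro k rfl
    constructor
    · rintro ⟨c, L, p, t, h1, h2, h3, h4, h5⟩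
      exact ⟨c, L, p, t, h1, h2, h3, by push_cast at h4 ⊢; linarith, h5⟩
    · rintro ⟨c, L, p, t, h1, h2, h3, h4, h5⟩
      exact ⟨c, L, p, t, h1, h2, h3, by push_cast at h4 ⊢; linarith, h5⟩
  constructor
  · intro H
    obtain ⟨h1, h2, h3⟩ := necessary hh H
    refine ⟨h1, h2, ?_⟩
    rcases Nat.lt_or_ge (2 * h + 1) (Nat.card G) with h4 | h4
    · right
      rcases Nat.even_or_odd h with h5 | h5
      · right
        obtain ⟨k, hk⟩ := h5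
        have hk' : h = 2 * k := by omega
        obtain ⟨-, h6, h7⟩ := (Lib.MP_3a897b_coR.even_iff hh hk' (by omega)).mp H
        exact ⟨h6, ⟨k, hk⟩, (hrep k hk').mpr h7⟩
      · left
        rcases h3 with h3 | ⟨h3, ⟨-, h6⟩ | ⟨h6, -⟩⟩
        · omega
        · exact ⟨h3, h5, h6⟩
        · exact absurd h5 (Nat.not_odd_iff_even.mpr h6)
    · exact Or.inl h4
  · rintro ⟨h1, h2, h3⟩
    rcases Nat.lt_or_ge (2 * h + 1) (Nat.card G) with h4 | h4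
    · rcases h3 with h3 | ⟨h3, h5, h6⟩ | ⟨h3, h5, h6⟩
      · omega
      · exact sufficient hh h1 h2 (Or.inr ⟨h3, Or.inl ⟨h5, h6⟩⟩)
      · obtain ⟨k, hk⟩ := h5
        have hk' : h = 2 * k := by omega
        exact (Lib.MP_3a897b_coR.even_iff hh hk' (by omega)).mpr ⟨h1, h3, (hrep k hk').mp h6⟩
    · exact sufficient hh h1 h2 (Or.inl h4)

end Pool.Agent.Results.MP_3a897b_co.TwoElementAll
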